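import Pool.Agent.N566.CX.Stm
import Pool.Agent.N566.VS.K9

/-!
# The exact constant in the critical value of the clasp (job CX2)
-/

set_option autoImplicit false

namespace Pool.Agent.N901.CX

open Filter Topology Metric MeasureTheory Set
open Pool.Agent.W711.HT Pool.Agent.N561 Pool.Agent.N119.VS Pool.Agent.N566.VS
open scoped Real

/-- `LS` on the imaginary axis -/
theorem LS_small {η : ℝ} (h0 : 0 < η) (h1 : η ≤ 1 / 4) :
    ‖LS (η * Complex.I)‖ ≤ η * (-Real.log (2 * η) + 1 + π / 2) := by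
  have hp := Real.pi_pos
  unfold LS
  rw [norm_mul]
  have e1 : ‖(η * Complex.I : ℂ)‖ = η := by simp [abs_of_pos h0]
  rw [e1]
  apply mul_le_mul_of_nonneg_left _ h0.le
  have hb : ∀ t : ℝ, t ∈ Ioc (0 : ℝ) 1 → ‖Complex.log (2 * Complex.sin (t * (η * Complex.I)))‖ ≤
      -Real.log (2 * η) - Real.log t + π / 2 := by
    intro t ht
    have hs0 : t * η ≤ Real.sinh (t * η) := Real.self_le_sinh_iff.2 (by nlinarith [ht.1])
    have hs1 : Real.sinh (t * η) ≤ Real.sinh (1 / 4) := Real.sinh_le_sinh.2 (by nlinarith [ht.1, ht.2])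
    have hs2 : Real.sinh (1 / 4) ≤ 1 / 2 := by
      rw [Real.sinh_eq]
      have f1 : (-(1 / 4 : ℝ)) + 1 ≤ Real.exp (-(1 / 4)) := Real.add_one_le_exp _
      have f2 : Real.exp (1 / 4) * Real.exp (-(1 / 4)) = 1 := by
        rw [← Real.exp_add]; norm_num
      have f3 : 0 < Real.exp (1 / 4) := Real.exp_pos _
      nlinarith
    have htη : 0 < t * η := mul_pos ht.1 h0
    have e2 : (2 * Complex.sin (t * (η * Complex.I)) : ℂ) =
        ((2 * Real.sinh (t * η) : ℝ) : ℂ) * Complex.I := by
      rw [show (t * (η * Complex.I) : ℂ) = ((t * η : ℝ) : ℂ) * Complex.I by push_cast; ring,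
        Complex.sin_mul_I]
      push_cast
      ring
    rw [e2, Complex.log_ofReal_mul (by linarith) Complex.I_ne_zero, Complex.log_I]
    refine (norm_add_le _ _).trans ?_
    have e3 : ‖(π / 2 * Complex.I : ℂ)‖ = π / 2 := by simp [abs_of_pos hp]
    rw [e3, Complex.norm_real, Real.norm_eq_abs]
    have e4 : Real.log (2 * Real.sinh (t * η)) ≤ 0 := Real.log_nonpos (by linarith) (by linarith)
    rw [abs_of_nonpos e4]
    have e5 : Real.log (2 * η) + Real.log t ≤ Real.log (2 * Real.sinh (t * η)) := by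
      rw [← Real.log_mul (by positivity) ht.1.ne']
      apply Real.log_le_log
      · have := ht.1; positivity
      · nlinarith
    linarith
  have hi1 : IntervalIntegrable (fun t : ℝ => Real.log t) volume 0 1 :=
    intervalIntegral.intervalIntegrable_log'
  have hi2 : IntervalIntegrable (fun _ : ℝ => -Real.log (2 * η)) volume 0 1 :=
    intervalIntegrable_const
  have hi3 : IntervalIntegrable (fun _ : ℝ => π / 2) volume 0 1 :=
    intervalIntegrable_const
  have h2 := intervalIntegral.norm_integral_le_of_norm_le (zero_le_one (α := ℝ))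
    (Eventually.of_forall hb) ((hi2.sub hi1).add hi3)
  refine h2.trans (le_of_eq ?_)
  rw [intervalIntegral.integral_add (hi2.sub hi1) hi3, intervalIntegral.integral_sub hi2 hi1,
    integral_log]
  simp

/-- `LL` near the real axis -/
theorem LL_im_small {x η : ℝ} (hx0 : 0 < x) (hx1 : x < π) (h0 : 0 ≤ η) (h1 : η ≤ 1) :
    |(LL (x / 2 + η * Complex.I)).im| ≤ η * (|Real.log (2 * Real.cos (x / 2))| + 8) := by
  have hp := Real.pi_pos
  have hp4 := Real.pi_le_four
  have hc : 0 < Real.cos (x / 2) := Real.cos_pos_of_mem_Ioo ⟨by linarith, by linarith⟩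
  set S : Set ℂ := {z : ℂ | z.re = x / 2 ∧ 0 ≤ z.im ∧ z.im ≤ η} with hS
  have hconv : Convex ℝ S := by
    have e : S = (Complex.reCLM ⁻¹' {x / 2}) ∩ (Complex.imCLM ⁻¹' Icc 0 η) := by
      ext z
      simp [hS]
    rw [e]
    exact ((convex_singleton _).linear_preimage Complex.reCLM.toLinearMap).inter
      ((convex_Icc _ _).linear_preimage Complex.imCLM.toLinearMap)
  have hW : ∀ z ∈ S, z ∈ WC := by
    rintro z ⟨z1, z2, z3⟩
    have : |z.re| < π / 2 := by
      rw [z1, abs_of_pos (by linarith)]; linarith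
    exact ⟨by linarith, Or.inl this⟩
  have hm0 : (x / 2 : ℂ) ∈ S := by
    refine ⟨by simp, by simp, by simpa using h0⟩
  have hm1 : (x / 2 + η * Complex.I : ℂ) ∈ S := by
    refine ⟨by simp, by simpa using h0, by simp⟩
  have key := hconv.norm_image_sub_le_of_norm_hasDerivWithin_le (f := LL)
    (f' := fun z => Complex.log (2 * Complex.cos z))
    (C := |Real.log (2 * Real.cos (x / 2))| + 8) (x := (x / 2 : ℂ))
    (y := (x / 2 + η * Complex.I : ℂ))
    (fun z hz => (LL_deriv (hW z hz)).hasDerivWithinAt) (by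
      rintro z ⟨z1, z2, z3⟩
      have g1 := Complex.norm_le_abs_re_add_abs_im (Complex.log (2 * Complex.cos z))
      rw [Complex.log_re, Complex.log_im] at g1
      have g2 := Complex.abs_arg_le_pi (2 * Complex.cos z)
      have g3 : ‖2 * Complex.cos z‖ ≤ 2 * Real.exp 1 := by
        rw [norm_mul]
        have : ‖(2:ℂ)‖ = 2 := by simp
        rw [this]
        have g4 := Pool.Agent.N207.VS.norm_cos_le z
        have g5 : Real.exp |z.im| ≤ Real.exp 1 := by
          apply Real.exp_le_exp.2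
          rw [abs_of_nonneg z2]; linarith
        linarith
      have g4 : 2 * Real.cos (x / 2) ≤ ‖2 * Complex.cos z‖ := by
        refine le_trans ?_ (Complex.re_le_norm _)
        rw [Pool.Agent.N207.VS.cos_re, z1]
        have g7 := Real.one_le_cosh z.im
        nlinarith
      have g5 : Real.log ‖2 * Complex.cos z‖ ≤ 2 := by
        have := Real.log_le_log (by linarith) g3
        rw [Real.log_mul (by norm_num) (Real.exp_ne_zero _), Real.log_exp] at this
        have h2 : Real.log 2 ≤ 2 - 1 := Real.log_le_sub_one_of_pos (by norm_num)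
        linarith
      have g6 : Real.log (2 * Real.cos (x / 2)) ≤ Real.log ‖2 * Complex.cos z‖ :=
        Real.log_le_log (by linarith) g4
      have g7 : |Real.log ‖2 * Complex.cos z‖| ≤ |Real.log (2 * Real.cos (x / 2))| + 2 := by
        rw [abs_le]
        have := neg_abs_le (Real.log (2 * Real.cos (x / 2)))
        have := abs_nonneg (Real.log (2 * Real.cos (x / 2)))
        constructor <;> linarith
      show ‖Complex.log (2 * Complex.cos z)‖ ≤ _
      linarith) hm0 hm1
  have hreal : (LL (x / 2 : ℂ)).im = 0 := by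
    have h3 := LL_conj (hW _ hm0)
    have h4 : (starRingEnd ℂ) (x / 2 : ℂ) = (x / 2 : ℂ) := by
      rw [map_div₀, Complex.conj_ofReal, map_ofNat]
    rw [h4] at h3
    have h5 := congrArg Complex.im h3
    rw [Complex.conj_im] at h5
    linarith
  have h6 : ‖((x / 2 + η * Complex.I : ℂ) - (x / 2 : ℂ))‖ = η := by
    rw [add_sub_cancel_left]
    simp [abs_of_nonneg h0]
  rw [h6] at key
  have h7 := Complex.abs_im_le_norm (LL (x / 2 + η * Complex.I) - LL (x / 2 : ℂ))
  rw [Complex.sub_im, hreal, sub_zero] at h7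
  linarith

/-- the real parameter -/
noncomputable def et (x : ℝ) : ℝ := -(Real.log (-1 - 2 * Real.cos x)) / 2

/-- the formula at real points -/
theorem EE_form {x : ℝ} (h1 : 2 * π / 3 < x) (h2 : x < π) :
    EE x - π * Complex.I / 2 = ((2 * (LL (x / 2 + et x * Complex.I)).im / π : ℝ) : ℂ) * Complex.I -
      LS (et x * Complex.I) / π - ((et x / 2 : ℝ) : ℂ) - ((et x ^ 2 / (2 * π) : ℝ) : ℂ) * Complex.I -
      (((x - π) ^ 2 / (2 * π) : ℝ) : ℂ) * Complex.I := by
  have hp := Real.pi_pos
  have hp0 : (π : ℂ) ≠ 0 := by exact_mod_cast hp.ne'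
  obtain ⟨b1, b2, b3⟩ := cos23 h1 h2
  set X : ℝ := -1 - 2 * Real.cos x with hX
  have hX0 : 0 < X := by rw [hX]; linarith
  have e1 : Xf x = (X : ℂ) := by
    apply Complex.ext
    · rw [Xf_re, Complex.ofReal_im, Complex.ofReal_re, Complex.ofReal_re, Real.cosh_zero]
      rw [hX]; ring
    · rw [Xf_im, Complex.ofReal_im, Complex.ofReal_im, Real.sinh_zero]; ring
  have e2 : df x = (et x / π : ℂ) * Complex.I := by
    unfold df et
    rw [e1, ← hX, ← Complex.ofReal_log hX0.le]
    push_cast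
    field_simp
    rw [Complex.I_sq]
    ring
  have e2' : (π : ℂ) * df x = et x * Complex.I := by
    rw [e2]; field_simp
  have hm : (x / 2 + et x * Complex.I : ℂ) ∈ WC := by
    have : |(x / 2 + et x * Complex.I : ℂ).re| < π / 2 := by
      have : (x / 2 + et x * Complex.I : ℂ).re = x / 2 := by simp
      rw [this, abs_of_pos (by linarith)]
      linarith
    exact ⟨by linarith, Or.inl this⟩
  have e3 : RR (df x) x = ((2 * (LL (x / 2 + et x * Complex.I)).im / π : ℝ) : ℂ) * Complex.I := by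
    unfold RR
    rw [e2', show (et x * Complex.I + x / 2 : ℂ) = x / 2 + et x * Complex.I by ring,
      show (et x * Complex.I - x / 2 : ℂ) =
        -((starRingEnd ℂ) (x / 2 + et x * Complex.I)) by
          rw [map_add, map_div₀, map_mul, Complex.conj_I, Complex.conj_ofReal,
            Complex.conj_ofReal, map_ofNat]
          ring, LL_neg, LL_conj hm]
    rw [← sub_eq_add_neg, Complex.sub_conj]
    push_cast
    ring
  unfold EE
  rw [e3, e2', e2]
  push_cast
  field_simp
  linear_combination ((et x : ℂ) * π + Complex.I * (et x : ℂ) ^ 2) * Complex.I_sq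

/-- the bound -/
noncomputable def bd (x : ℝ) : ℝ :=
  2 / π * (|2 * Real.cos (x / 2)| * |(2 * Real.cos (x / 2)) * Real.log (2 * Real.cos (x / 2))| +
    8 * (2 * Real.cos (x / 2)) ^ 2) +
  (|2 * et x * Real.log (2 * et x)| / 2 + et x * (1 + π / 2)) / π + et x / 2 +
  et x ^ 2 / (2 * π) + (x - π) ^ 2 / (2 * π)

theorem X_eq (x : ℝ) : -1 - 2 * Real.cos x = 1 - (2 * Real.cos (x / 2)) ^ 2 := by
  have h := Real.cos_sq (x / 2)
  rw [show 2 * (x / 2) = x by ring] at h
  nlinarith

theorem et_le {x : ℝ} (h : (2 * Real.cos (x / 2)) ^ 2 ≤ 1 / 2) :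
    et x ≤ (2 * Real.cos (x / 2)) ^ 2 := by
  unfold et
  rw [X_eq]
  set u := (2 * Real.cos (x / 2)) ^ 2
  have hu : 0 ≤ u := sq_nonneg _
  have h1 := Real.one_sub_inv_le_log_of_pos (show (0 : ℝ) < 1 - u by linarith)
  have h2 : (1 - u)⁻¹ ≤ 1 + 2 * u := by
    rw [inv_le_comm₀ (by linarith) (by linarith)]
    rw [inv_le_iff_one_le_mul₀ (by linarith)]
    nlinarith
  linarith

theorem et_pos {x : ℝ} (h1 : 2 * π / 3 < x) (h2 : x < π) : 0 < et x := by
  obtain ⟨b1, b2, b3⟩ := cos23 h1 h2
  unfold et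
  have := Real.log_neg (x := -1 - 2 * Real.cos x) (by linarith) (by linarith)
  linarith

theorem EE_le {x : ℝ} (h1 : 2 * π / 3 < x) (h2 : x < π)
    (h3 : (2 * Real.cos (x / 2)) ^ 2 ≤ 1 / 4) : ‖EE x - π * Complex.I / 2‖ ≤ bd x := by
  have hp := Real.pi_pos
  have he := et_pos h1 h2
  have hle := et_le (x := x) (by linarith)
  have hc : 0 < Real.cos (x / 2) := Real.cos_pos_of_mem_Ioo ⟨by linarith, by linarith⟩
  rw [EE_form h1 h2]
  have g1 := LS_small he (by linarith)
  have g2 := LL_im_small (x := x) (η := et x) (by linarith) h2 he.le (by linarith)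
  set c := 2 * Real.cos (x / 2) with hcd
  have hc0 : 0 < c := by linarith
  have n1 : ‖(((2 * (LL (x / 2 + et x * Complex.I)).im / π : ℝ) : ℂ) * Complex.I)‖ ≤
      2 / π * (|c| * |c * Real.log c| + 8 * c ^ 2) := by
    rw [norm_mul, Complex.norm_I, mul_one, Complex.norm_real, Real.norm_eq_abs, abs_div, abs_mul,
      abs_of_pos hp, abs_of_pos (two_pos (α := ℝ)), mul_div_right_comm]
    apply mul_le_mul_of_nonneg_left _ (by positivity)
    refine g2.trans ?_
    rw [abs_mul c, abs_of_pos hc0]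
    have h5 := abs_nonneg (Real.log c)
    nlinarith
  have n2 : ‖(LS (et x * Complex.I) / π : ℂ)‖ ≤
      (|2 * et x * Real.log (2 * et x)| / 2 + et x * (1 + π / 2)) / π := by
    rw [norm_div, Complex.norm_real, Real.norm_eq_abs, abs_of_pos hp]
    apply div_le_div_of_nonneg_right _ hp.le
    refine g1.trans ?_
    rw [abs_mul, abs_of_pos (show (0:ℝ) < 2 * et x by linarith)]
    have h5 := neg_le_abs (Real.log (2 * et x))
    nlinarith
  have n3 : ‖((et x / 2 : ℝ) : ℂ)‖ = et x / 2 := by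
    rw [Complex.norm_real, Real.norm_eq_abs, abs_of_pos (by linarith)]
  have n4 : ‖(((et x ^ 2 / (2 * π) : ℝ) : ℂ) * Complex.I)‖ = et x ^ 2 / (2 * π) := by
    rw [norm_mul, Complex.norm_I, mul_one, Complex.norm_real, Real.norm_eq_abs,
      abs_of_nonneg (by positivity)]
  have n5 : ‖((((x - π) ^ 2 / (2 * π) : ℝ) : ℂ) * Complex.I)‖ = (x - π) ^ 2 / (2 * π) := by
    rw [norm_mul, Complex.norm_I, mul_one, Complex.norm_real, Real.norm_eq_abs,
      abs_of_nonneg (by positivity)]
  refine (norm_sub_le _ _).trans ?_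
  rw [n5]
  have m4 := norm_sub_le (((2 * (LL (x / 2 + et x * Complex.I)).im / π : ℝ) : ℂ) * Complex.I -
      LS (et x * Complex.I) / π - ((et x / 2 : ℝ) : ℂ)) (((et x ^ 2 / (2 * π) : ℝ) : ℂ) * Complex.I)
  rw [n4] at m4
  have m3 := norm_sub_le (((2 * (LL (x / 2 + et x * Complex.I)).im / π : ℝ) : ℂ) * Complex.I -
      LS (et x * Complex.I) / π) ((et x / 2 : ℝ) : ℂ)
  rw [n3] at m3
  have m2 := norm_sub_le (((2 * (LL (x / 2 + et x * Complex.I)).im / π : ℝ) : ℂ) * Complex.I)
      (LS (et x * Complex.I) / π)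
  unfold bd
  rw [← hcd]
  linarith

theorem et_cont : ContinuousAt et π := by
  unfold et
  apply ContinuousAt.div_const
  apply ContinuousAt.neg
  apply ContinuousAt.log
  · fun_prop
  · rw [Real.cos_pi]; norm_num

theorem et_pi : et π = 0 := by
  unfold et
  rw [Real.cos_pi]
  norm_num

theorem bd_pi : bd π = 0 := by
  unfold bd
  rw [et_pi, Real.cos_pi_div_two]
  simp

theorem bd_cont : ContinuousAt bd π := by
  have h1 : Continuous fun x : ℝ => (2 * Real.cos (x / 2)) * Real.log (2 * Real.cos (x / 2)) :=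
    Real.continuous_mul_log.comp (g := fun y : ℝ => y * Real.log y)
      (f := fun x : ℝ => 2 * Real.cos (x / 2)) (by fun_prop)
  have h2 : ContinuousAt (fun x : ℝ => 2 * et x * Real.log (2 * et x)) π :=
    ContinuousAt.comp (g := fun y : ℝ => y * Real.log y) (f := fun x : ℝ => 2 * et x)
      Real.continuous_mul_log.continuousAt (et_cont.const_mul 2)
  have h3 := et_cont
  unfold bd
  apply ContinuousAt.add
  · apply ContinuousAt.add
    · apply ContinuousAt.add
      · apply ContinuousAt.add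
        · apply Continuous.continuousAt
          apply Continuous.mul continuous_const
          exact ((by fun_prop : Continuous fun x : ℝ => |2 * Real.cos (x / 2)|).mul h1.abs).add
            (by fun_prop)
        · apply ContinuousAt.div_const
          exact (h2.abs.div_const 2).add (h3.mul_const _)
      · exact h3.div_const 2
    · exact (h3.pow 2).div_const _
  · fun_prop

/-- the limit -/
theorem EE_lim : Tendsto (fun x : ℝ => EE x) (𝓝[<] π) (𝓝 (π * Complex.I / 2)) := by
  have hp := Real.pi_pos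
  rw [tendsto_iff_norm_sub_tendsto_zero]
  have h0 : Tendsto bd (𝓝[<] π) (𝓝 0) := by
    have := bd_cont.tendsto
    rw [bd_pi] at this
    exact this.mono_left nhdsWithin_le_nhds
  refine squeeze_zero' (Eventually.of_forall fun x => norm_nonneg _) ?_ h0
  have h1 : ∀ᶠ x in 𝓝[<] π, 2 * π / 3 < x :=
    mem_nhdsWithin_of_mem_nhds (lt_mem_nhds (by linarith))
  have h2 : ∀ᶠ x in 𝓝[<] π, (2 * Real.cos (x / 2)) ^ 2 < 1 / 4 := by
    have c1 : ContinuousAt (fun x : ℝ => (2 * Real.cos (x / 2)) ^ 2) π := by fun_prop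
    exact mem_nhdsWithin_of_mem_nhds (c1.eventually (gt_mem_nhds (by
      show (2 * Real.cos (π / 2)) ^ 2 < 1 / 4
      rw [Real.cos_pi_div_two]; norm_num)))
  filter_upwards [h1, h2, self_mem_nhdsWithin] with x a1 a2 a3
  exact EE_le a1 a3 a2.le

/-- `EE` at real points -/
theorem EE_real_eq {x : ℝ} (h1 : 2 * π / 3 < x) (h2 : x < π) {φ : ℂ}
    (h : φ ∈ Pool.Agent.N566.VS.W) : EE φ = EE x := by
  have c1 : ContinuousAt EE (x : ℂ) :=
    (EE_deriv (φ := (x : ℂ)) (by simpa using h1) (by simpa using h2) (by simp)).continuousAt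
  have c2 : Tendsto (fun y : ℝ => ((x : ℂ) + y * Complex.I)) (𝓝[>] 0) (𝓝 (x : ℂ)) := by
    have : Tendsto (fun y : ℝ => ((x : ℂ) + y * Complex.I)) (𝓝 0) (𝓝 ((x : ℂ) +
        (0 : ℝ) * Complex.I)) := by
      apply Continuous.tendsto
      fun_prop
    rw [Complex.ofReal_zero, zero_mul, add_zero] at this
    exact this.mono_left nhdsWithin_le_nhds
  have c3 : Tendsto (fun y : ℝ => EE ((x : ℂ) + y * Complex.I)) (𝓝[>] 0)
      (𝓝 (EE (x : ℂ))) := c1.tendsto.comp c2
  have c4 : Tendsto (fun y : ℝ => EE ((x : ℂ) + y * Complex.I)) (𝓝[>] 0) (𝓝 (EE φ)) := by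
    apply tendsto_const_nhds.congr'
    filter_upwards [self_mem_nhdsWithin] with y hy
    apply EE_const h
    refine ⟨?_, ?_, ?_⟩
    · simpa using h1
    · simpa using h2
    · simpa using hy
  exact tendsto_nhds_unique c4 c3

theorem EE_value {φ : ℂ} (h : φ ∈ Pool.Agent.N566.VS.W) : EE φ = π * Complex.I / 2 := by
  have hp := Real.pi_pos
  have c4 : Tendsto (fun x : ℝ => EE x) (𝓝[<] π) (𝓝 (EE φ)) := by
    apply tendsto_const_nhds.congr'
    have h1 : ∀ᶠ x in 𝓝[<] π, 2 * π / 3 < x :=
      mem_nhdsWithin_of_mem_nhds (lt_mem_nhds (by linarith))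
    filter_upwards [h1, self_mem_nhdsWithin] with x a1 a3
    exact EE_real_eq a1 a3 h
  exact tendsto_nhds_unique c4 EE_lim

/-- the result -/
theorem ccre (h : S_CSG) : Pool.Agent.N566.CX.S_CCRE := by
  obtain ⟨r₁, c, C, h⟩ := h
  intro g hg
  obtain ⟨r, k, hr0, hr1, -, hk⟩ := main h.hr.1 h.san h.sder2 g hg
  have hk0 : k = π * Complex.I / 2 := by
    obtain ⟨-, -, a3, -, a5⟩ := (near0 1 one_pos).self_of_nhds
    have e1 := Pool.Agent.N566.VS.key a3 a5
    obtain ⟨-, -, e2, -⟩ := hk 0 ⟨by simpa using hr0, by simpa using hr0⟩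
    rw [EE_value zc_zero_mem] at e1
    linear_combination e2 - e1
  refine ⟨r, hr0, hr1, ?_⟩
  intro ψ hψ
  have := hk ψ hψ
  rw [hk0] at this
  exact this

end Pool.Agent.N901.CX
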